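import Mathlib
import Pool.Agent.W133.DQ.StC

set_option autoImplicit false

open scoped ContDiff
open Set Filter Topology

namespace Pool.Agent.W7.DQ

open Pool.Agent.W133.DQ

theorem cu_smooth : ContDiff ℝ ∞ cu :=
  Real.smoothTransition.contDiff.comp (contDiff_const.sub contDiff_id)

theorem cu_one {s : ℝ} (h : s ≤ 1) : cu s = 1 :=
  Real.smoothTransition.one_of_one_le (by linarith)

theorem cu_zero {s : ℝ} (h : 2 ≤ s) : cu s = 0 :=
  Real.smoothTransition.zero_of_nonpos (by linarith)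

theorem rot_smooth : ContDiff ℝ ∞ (fun q : ℝ × P2 => rot q.1 q.2) := by
  have hx : ContDiff ℝ ∞ (fun q : ℝ × P2 => q.2.1) := contDiff_fst.comp contDiff_snd
  have hy : ContDiff ℝ ∞ (fun q : ℝ × P2 => q.2.2) := contDiff_snd.comp contDiff_snd
  have ha : ContDiff ℝ ∞ (fun q : ℝ × P2 => q.1 * cu (q.2.1 ^ 2 + q.2.2 ^ 2)) :=
    contDiff_fst.mul (cu_smooth.comp ((hx.pow 2).add (hy.pow 2)))
  exact ((ha.cos.mul hx).sub (ha.sin.mul hy)).prodMk ((ha.sin.mul hx).add (ha.cos.mul hy))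

theorem rot_zero : rot 0 = 1 := by
  ext p : 1
  exact rotf_zero p

theorem rot_add (s t : ℝ) : rot (s + t) = rot s * rot t := by
  ext p : 1
  exact (rotf_rotf s t p).symm

theorem rot_inv (s : ℝ) : (rot s)⁻¹ = rot (-s) := by
  rw [inv_eq_iff_mul_eq_one, ← rot_add, add_neg_cancel, rot_zero]

theorem rot_far (θ : ℝ) (p : P2) (hp : 2 ≤ ‖p‖) : rot θ p = p := by
  have h : 2 ≤ p.1 ^ 2 + p.2 ^ 2 := by
    rw [Prod.norm_def] at hp
    rcases le_max_iff.1 hp with h | h
    · rw [Real.norm_eq_abs] at h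
      have := sq_abs p.1
      nlinarith [sq_nonneg p.2]
    · rw [Real.norm_eq_abs] at h
      have := sq_abs p.2
      nlinarith [sq_nonneg p.1]
  show rotf θ p = p
  unfold rotf
  rw [cu_zero h]
  simp

theorem rot_near (θ : ℝ) (p : P2) (hp : ‖p‖ ≤ 1 / 2) :
    rot θ p = (Real.cos θ * p.1 - Real.sin θ * p.2, Real.sin θ * p.1 + Real.cos θ * p.2) := by
  have h : p.1 ^ 2 + p.2 ^ 2 ≤ 1 := by
    rw [Prod.norm_def] at hp
    have h1 := (le_max_left ‖p.1‖ ‖p.2‖).trans hp
    have h2 := (le_max_right ‖p.1‖ ‖p.2‖).trans hp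
    rw [Real.norm_eq_abs] at h1 h2
    have e1 := sq_abs p.1
    have e2 := sq_abs p.2
    nlinarith [abs_nonneg p.1, abs_nonneg p.2]
  show rotf θ p = _
  unfold rotf
  rw [cu_one h, mul_one]

theorem rot_sm (θ : ℝ) : ContDiff ℝ ∞ (fun p : P2 => rot θ p) := by
  have hx : ContDiff ℝ ∞ (fun q : P2 => q.1) := contDiff_fst
  have hy : ContDiff ℝ ∞ (fun q : P2 => q.2) := contDiff_snd
  have ha : ContDiff ℝ ∞ (fun q : P2 => θ * cu (q.1 ^ 2 + q.2 ^ 2)) :=
    contDiff_const.mul (cu_smooth.comp ((hx.pow 2).add (hy.pow 2)))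
  exact ((ha.cos.mul hx).sub (ha.sin.mul hy)).prodMk ((ha.sin.mul hx).add (ha.cos.mul hy))

theorem rot_fix (θ : ℝ) : rot θ 0 = 0 := by
  have h := rot_near θ 0 (by rw [norm_zero]; norm_num)
  rw [h]
  simp only [Prod.fst_zero, Prod.snd_zero, mul_zero, sub_zero, add_zero]
  rfl

theorem rot_DC0 (θ : ℝ) : rot θ ∈ DC0 := by
  refine mem_DC0.2 ⟨mem_DC.2 ⟨⟨rot_sm θ, ?_⟩, 2, fun p hp => rot_far θ p hp.le⟩, rot_fix θ⟩
  rw [rot_inv]
  exact rot_sm (-θ)

/-- facts about the rotations -/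
theorem rotS : S_ROT := by
  refine ⟨rot_smooth, rot_zero, rot_add, rot_DC0, ?_, rot_far, rot_near⟩
  intro n
  refine ⟨(rot_DC0 _).1, 1 / 2, by norm_num, fun p hp => ?_⟩
  have e : 2 * Real.pi * (n : ℝ) = n * (2 * Real.pi) := by ring
  have hc : Real.cos (2 * Real.pi * (n : ℝ)) = 1 := by rw [e]; exact Real.cos_int_mul_two_pi n
  have hs : Real.sin (2 * Real.pi * (n : ℝ)) = 0 := by
    have := Real.sin_int_mul_pi (2 * n)
    push_cast at this
    rw [← this]; congr 1; ring
  rw [rot_near _ p hp.le, hc, hs]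
  simp

/-- angle of a smooth loop in the punctured plane -/
theorem ang1 : S_ANG1 := by
  intro a b ha hb hab a0 b0 hneg hpos
  have hda : ContDiff ℝ ∞ (deriv a) := (contDiff_infty_iff_deriv.1 ha).2
  have hdb : ContDiff ℝ ∞ (deriv b) := (contDiff_infty_iff_deriv.1 hb).2
  have Ha : ∀ t, HasDerivAt a (deriv a t) t := fun t =>
    ((contDiff_infty_iff_deriv.1 ha).1 t).hasDerivAt
  have Hb : ∀ t, HasDerivAt b (deriv b t) t := fun t =>
    ((contDiff_infty_iff_deriv.1 hb).1 t).hasDerivAt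
  have hr0 : ∀ t, 0 < a t ^ 2 + b t ^ 2 := fun t =>
    lt_of_le_of_ne (by positivity) (hab t).symm
  set g : ℝ → ℝ := fun t => (a t * deriv b t - b t * deriv a t) / (a t ^ 2 + b t ^ 2) with hg
  have hgs : ContDiff ℝ ∞ g :=
    ((ha.mul hdb).sub (hb.mul hda)).div ((ha.pow 2).add (hb.pow 2)) hab
  set θ : ℝ → ℝ := fun t => ∫ x in (0 : ℝ)..t, g x with hθ
  have Hθ : ∀ t, HasDerivAt θ (g t) t := fun t =>
    intervalIntegral.integral_hasDerivAt_right (hgs.continuous.intervalIntegrable _ _)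
      (hgs.continuous.stronglyMeasurableAtFilter _ _) hgs.continuous.continuousAt
  have hθs : ContDiff ℝ ∞ θ := by
    rw [contDiff_infty_iff_deriv]
    refine ⟨fun t => (Hθ t).differentiableAt, ?_⟩
    have : deriv θ = g := funext fun t => (Hθ t).deriv
    rw [this]; exact hgs
  have hθ0 : θ 0 = 0 := by simp [hθ]
  set r : ℝ → ℝ := fun t => Real.sqrt (a t ^ 2 + b t ^ 2) with hr
  have hrp : ∀ t, 0 < r t := fun t => Real.sqrt_pos.2 (hr0 t)
  have hrr : ∀ t, r t ^ 2 = a t ^ 2 + b t ^ 2 := fun t => Real.sq_sqrt (hr0 t).le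
  set ρ : ℝ → ℝ := fun t => (a t * deriv a t + b t * deriv b t) / (a t ^ 2 + b t ^ 2) with hρ
  have Hr : ∀ t, HasDerivAt r (r t * ρ t) t := by
    intro t
    have h1 := (((Ha t).pow 2).add ((Hb t).pow 2)).sqrt (hab t)
    refine h1.congr_deriv ?_
    have h2 := hrr t
    have h3 := (hrp t).ne'
    simp only [hρ]
    rw [← h2]
    show _ / (2 * r t) = _
    field_simp
    norm_num
    ring
  set A : ℝ → ℝ := fun t => a t * Real.cos (θ t) + b t * Real.sin (θ t) with hA
  set B : ℝ → ℝ := fun t => a t * Real.sin (θ t) - b t * Real.cos (θ t) with hB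
  have HA : ∀ t, HasDerivAt A (A t * ρ t) t := by
    intro t
    have h1 := ((Ha t).mul (Hθ t).cos).add ((Hb t).mul (Hθ t).sin)
    refine h1.congr_deriv ?_
    simp only [hA, hρ, hg]
    have := hab t
    field_simp
    ring
  have HB : ∀ t, HasDerivAt B (B t * ρ t) t := by
    intro t
    have h1 := ((Ha t).mul (Hθ t).sin).sub ((Hb t).mul (Hθ t).cos)
    refine h1.congr_deriv ?_
    simp only [hB, hρ, hg]
    have := hab t
    field_simp
    ring
  have quot : ∀ C : ℝ → ℝ, (∀ t, HasDerivAt C (C t * ρ t) t) → ∀ t, C t / r t = C 0 / r 0 := by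
    intro C HC t
    have h1 : ∀ s, HasDerivAt (fun t => C t / r t) 0 s := by
      intro s
      refine ((HC s).div (Hr s) (hrp s).ne').congr_deriv ?_
      have : C s * ρ s * r s - C s * (r s * ρ s) = 0 := by ring
      rw [this, zero_div]
    exact is_const_of_deriv_eq_zero (fun s => (h1 s).differentiableAt) (fun s => (h1 s).deriv) t 0
  have hr00 : r 0 = 1 := by simp [hr, a0, b0]
  have hA1 : ∀ t, A t = r t := by
    intro t
    have := quot A HA t
    have h2 : A 0 = 1 := by simp [hA, a0, b0, hθ0]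
    rw [h2, hr00, div_one, div_eq_one_iff_eq (hrp t).ne'] at this
    exact this
  have hB0 : ∀ t, B t = 0 := by
    intro t
    have := quot B HB t
    have h2 : B 0 = 0 := by simp [hB, a0, b0, hθ0]
    rw [h2, zero_div] at this
    exact (div_eq_zero_iff.1 this).resolve_right (hrp t).ne'
  have dz : ∀ c : ℝ → ℝ, (∀ t, HasDerivAt c (deriv c t) t) → (∀ t, t ≤ 0 → c t = c 0) →
      ∀ t, t ≤ 0 → deriv c t = 0 := by
    intro c Hc hc t ht
    have h1 : HasDerivWithinAt c 0 (Iic t) t :=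
      (hasDerivWithinAt_const t (Iic t) (c 0)).congr (fun x hx => hc x (le_trans hx ht)) (hc t ht)
    exact (uniqueDiffWithinAt_Iic t).eq_deriv _ (Hc t).hasDerivWithinAt h1
  have dz1 : ∀ c : ℝ → ℝ, (∀ t, HasDerivAt c (deriv c t) t) → (∀ t, 1 ≤ t → c t = c 1) →
      ∀ t, 1 ≤ t → deriv c t = 0 := by
    intro c Hc hc t ht
    have h1 : HasDerivWithinAt c 0 (Ici t) t :=
      (hasDerivWithinAt_const t (Ici t) (c 1)).congr (fun x hx => hc x (le_trans ht hx)) (hc t ht)
    exact (uniqueDiffWithinAt_Ici t).eq_deriv _ (Hc t).hasDerivWithinAt h1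
  refine ⟨θ, hθs, hθ0, ?_, ?_, ?_, ?_⟩
  · intro t
    have h1 := hA1 t
    have h2 := hB0 t
    have h3 := Real.sin_sq_add_cos_sq (θ t)
    show a t = r t * Real.cos (θ t)
    rw [← h1]
    simp only [hA]
    simp only [hB] at h2
    linear_combination (-(a t)) * h3 + Real.sin (θ t) * h2
  · intro t
    have h1 := hA1 t
    have h2 := hB0 t
    have h3 := Real.sin_sq_add_cos_sq (θ t)
    show b t = r t * Real.sin (θ t)
    rw [← h1]
    simp only [hA]
    simp only [hB] at h2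
    linear_combination (-(b t)) * h3 - Real.cos (θ t) * h2
  · intro t ht
    have h1 : ∀ x ∈ uIcc 0 t, g x = 0 := by
      intro x hx
      rw [uIcc_of_ge ht] at hx
      simp only [hg]
      rw [dz a Ha (fun t ht => (hneg t ht).1) x hx.2, dz b Hb (fun t ht => (hneg t ht).2) x hx.2]
      simp
    show ∫ x in (0 : ℝ)..t, g x = 0
    rw [intervalIntegral.integral_congr h1]
    simp
  · intro t ht
    have h1 : ∀ x ∈ uIcc 1 t, g x = 0 := by
      intro x hx
      rw [uIcc_of_le ht] at hx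
      simp only [hg]
      rw [dz1 a Ha (fun t ht => (hpos t ht).1) x hx.1, dz1 b Hb (fun t ht => (hpos t ht).2) x hx.1]
      simp
    have h2 : ∫ x in (1 : ℝ)..t, g x = 0 := by
      rw [intervalIntegral.integral_congr h1]
      simp
    have h3 := intervalIntegral.integral_add_adjacent_intervals
      (hgs.continuous.intervalIntegrable 0 1) (hgs.continuous.intervalIntegrable 1 t)
      (μ := MeasureTheory.volume)
    show ∫ x in (0 : ℝ)..t, g x = ∫ x in (0 : ℝ)..1, g x
    rw [← h3, h2, add_zero]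

end Pool.Agent.W7.DQ
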